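import Pool.Agent.Helper80.SI.StN

/-! Project SI (MP_181f94_al), module N5 -/

set_option autoImplicit false
set_option linter.unusedSectionVars false

namespace Pool.Agent.Helper37.SI

open Pool.Agent.Helper99.SI Pool.Agent.Helper80.SI Filter Topology

section

variable {n : ℕ} {L : Type}

/-- the same word in the other copy -/
def prt {r : ℕ} : Idx n r → Idx n r
  | Sum.inl (Sum.inl ν) => Sum.inl (Sum.inr ν)
  | Sum.inl (Sum.inr ν) => Sum.inl (Sum.inl ν)
  | Sum.inr a => Sum.inr a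

theorem prt_prt {r : ℕ} (i : Idx n r) : prt (prt i) = i := by
  rcases i with ((ν | ν) | a) <;> rfl

theorem prt_inj {r : ℕ} : Function.Injective (prt : Idx n r → Idx n r) :=
  Function.LeftInverse.injective prt_prt

variable [Ring L] [Algebra ℂ L] [StarRing L]

theorem Cc_supp (m : MData n L) (t : ℝ) (i' i : Idx n m.r) (h : m.Cc t i' i ≠ 0) :
    ilen i' ≤ ilen i := by
  rcases i' with ((ν | ν) | a)
  · have : m.Cc t (Sum.inl (Sum.inl ν)) = Finsupp.single (Sum.inl (Sum.inr ν)) 1 := rfl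
    rw [this, Finsupp.single_apply] at h
    split_ifs at h with h1
    · rw [← h1]; exact le_rfl
    · exact absurd rfl h
  · have : m.Cc t (Sum.inl (Sum.inr ν)) = Finsupp.single (Sum.inl (Sum.inl ν)) 1 := rfl
    rw [this, Finsupp.single_apply] at h
    split_ifs at h with h1
    · rw [← h1]; exact le_rfl
    · exact absurd rfl h
  · exact Nat.zero_le _

theorem Cinf_eq (m : MData n L) (t : ℝ) (z : Idx n m.r → ℂ) (i : Idx n m.r) :
    Cinf m t z i = ∑ i' ∈ (fin_ilen (n := n) (r := m.r) (ilen i)).toFinset,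
      star (z i') * m.Cc t i' i := by
  unfold Cinf
  refine finsum_eq_sum_of_support_subset _ fun i' hi' => ?_
  rw [Function.mem_support] at hi'
  have : m.Cc t i' i ≠ 0 := fun h => hi' (by rw [h, mul_zero])
  simpa using Cc_supp m t i' i this

theorem Cc_tendsto (m : MData n L) (t : ℕ → ℝ) (ht : Tendsto t atTop (𝓝 1)) (i' i : Idx n m.r) :
    Tendsto (fun k => m.Cc (t k) i' i) atTop (𝓝 (m.Cc 1 i' i)) := by
  rcases i' with ((ν | ν) | a)
  · exact tendsto_const_nhds
  · exact tendsto_const_nhds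
  · have e : ∀ x : ℝ, m.Cc x (Sum.inr a) i = ∑ j ∈ m.Z, (x : ℂ) ^ j * m.Cm j a i := by
      intro x
      have : m.Cc x (Sum.inr a) = ∑ j ∈ m.Z, (x : ℂ) ^ j • m.Cm j a := rfl
      rw [this, Finsupp.finsetSum_apply]
      rfl
    simp only [e]
    refine tendsto_finsetSum _ fun j _ => Tendsto.mul ?_ tendsto_const_nhds
    have h1 : Tendsto (fun k => (t k : ℂ)) atTop (𝓝 ((1 : ℝ) : ℂ)) :=
      (Complex.continuous_ofReal.tendsto 1).comp ht
    have h2 : ContinuousAt (fun x : ℂ => x ^ j) ((1 : ℝ) : ℂ) :=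
      continuousAt_zpow₀ _ _ (Or.inl (by norm_num))
    exact h2.tendsto.comp h1

theorem Cinf_long (D : Sys n L) (X0 : Set L) (m : MData n L) (hm : IsModel D X0 m)
    (z : Idx n m.r → ℂ) (i : Idx n m.r) (hi : m.M2 ≤ ilen i) :
    Cinf m 1 z i = star (z (prt i)) := by
  have h0 : 1 ≤ ilen i := le_trans hm.M1 (le_trans hm.MM hi)
  unfold Cinf
  rw [finsum_eq_single _ (prt i)]
  · rcases i with ((ν | ν) | a)
    · have : m.Cc 1 (prt (Sum.inl (Sum.inl ν))) = Finsupp.single (Sum.inl (Sum.inl ν)) 1 := rfl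
      rw [this, Finsupp.single_eq_same, mul_one]
    · have : m.Cc 1 (prt (Sum.inl (Sum.inr ν))) = Finsupp.single (Sum.inl (Sum.inr ν)) 1 := rfl
      rw [this, Finsupp.single_eq_same, mul_one]
    · exact absurd h0 (by simp [ilen])
  · intro i' hi'
    have : m.Cc 1 i' i = 0 := by
      rcases i' with ((ν | ν) | a)
      · have e : m.Cc 1 (Sum.inl (Sum.inl ν)) = Finsupp.single (Sum.inl (Sum.inr ν)) 1 := rfl
        rw [e, Finsupp.single_apply, if_neg]
        intro h
        apply hi'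
        rw [← h]; rfl
      · have e : m.Cc 1 (Sum.inl (Sum.inr ν)) = Finsupp.single (Sum.inl (Sum.inl ν)) 1 := rfl
        rw [e, Finsupp.single_apply, if_neg]
        intro h
        apply hi'
        rw [← h]; rfl
      · have e : m.Cc 1 (Sum.inr a) = ∑ j ∈ m.Z, ((1 : ℝ) : ℂ) ^ j • m.Cm j a := rfl
        rw [e, Finsupp.finsetSum_apply]
        refine Finset.sum_eq_zero fun j _ => ?_
        have h1 : m.Cm j a i = 0 := by
          by_contra h
          exact absurd (hm.Csupp j a i h) (not_lt.2 hi)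
        rw [Finsupp.smul_apply, h1, smul_zero]
    rw [this, mul_zero]

end

theorem hN5 (h1 : StN4) : StN5 := by
  intro n L _ _ _ _ _ D X0 m s t zz z σ τ hm hL
  refine ⟨hL.s0, hL.s1, hL.t0, hL.t1, hL.ne, hL.sl, hL.tl, fun k => ?_, fun i => ?_, ?_,
    hL.σ0, hL.τ0, hL.στ, hL.σl, hL.τl⟩
  · exact h1 n L D X0 m (s k) (t k) (zz k) hm (hL.t0 k) (hL.ker k)
  · simp only [Cinf_eq]
    refine tendsto_finsetSum _ fun i' _ => Tendsto.mul ?_ (Cc_tendsto m t hL.tl i' i)
    exact (continuous_star.tendsto _).comp (hL.lim i')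
  · have h2 : Summable fun i => ‖z (prt i)‖ ^ 2 := hL.sum.comp_injective prt_inj
    refine h2.congr_cofinite ?_
    have hfin : {i : Idx n m.r | ilen i < m.M2}.Finite :=
      (fin_ilen m.M2).subset fun i hi => (show ilen i ≤ m.M2 from le_of_lt hi)
    refine (hfin.eventually_cofinite_notMem).mono fun i hi => ?_
    have hi' : m.M2 ≤ ilen i := not_lt.1 hi
    show ‖z (prt i)‖ ^ 2 = ‖Cinf m 1 z i‖ ^ 2
    rw [Cinf_long D X0 m hm z i hi', norm_star]

end Pool.Agent.Helper37.SI
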